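import Mathlib
import Pool.Agent.H315R3.ETC.Gen
import Pool.Agent.Y920.ETC.Iter

set_option autoImplicit false

/-! Group extensions are recognised by partitions of the group modulo `{1, -1}`. -/

namespace Pool.Agent.R675.PQ

open Pool.Agent.H315R3.ETC Pool.Agent.Y920.ETC

/-- a partition of `G/{1,-1}` into proper subgroups, given by their preimages in `G` -/
structure IsPartition (S : QData) (P : Set (Subgroup S.G)) : Prop where
  neg_mem : ∀ K ∈ P, S.neg ∈ K
  ne_top : ∀ K ∈ P, K ≠ ⊤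
  cover : ∀ x : S.G, ∃ K ∈ P, x ∈ K
  meet : ∀ K ∈ P, ∀ K' ∈ P, K ≠ K' → ∀ x : S.G, x ∈ K → x ∈ K' → x = 1 ∨ x = S.neg

/-- each value group `V(a)`, `a ≠ 1`, lies in a part which contains `a` -/
def ContainsValueGroups (S : QData) (P : Set (Subgroup S.G)) : Prop :=
  ∀ a : S.G, a ≠ 1 → ∃ K ∈ P, a ∈ K ∧ ∀ b : S.G, S.q a b = S.zero → b ∈ K

section core

variable {S : QData} (h : IsQuat S) {P : Set (Subgroup S.G)} (hP : IsPartition S P)
  (hV : ContainsValueGroups S P)

include hP hV in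
lemma vk {K : Subgroup S.G} (hK : K ∈ P) {u x : S.G} (hu : u ∈ K) (h1 : u ≠ 1) (h2 : u ≠ S.neg)
    (hx : S.q u x = S.zero) : x ∈ K := by
  obtain ⟨K', hK', hu', hv⟩ := hV u h1
  by_cases e : K = K'
  · rw [e]; exact hv x hx
  · rcases hP.meet K hK K' hK' e u hu hu' with h3 | h3
    · exact absurd h3 h1
    · exact absurd h3 h2

include hP hV in
/-- the distinguished part -/
lemma exists_k0 : ∃ K0 ∈ P, (∃ a ∈ K0, a ≠ 1 ∧ a ≠ S.neg) ∧
    ∀ u ∈ K0, u ≠ 1 → ∀ x, S.q u x = S.zero → x ∈ K0 := by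
  have key : ∀ K0 ∈ P, (∃ a ∈ K0, a ≠ 1 ∧ a ≠ S.neg) →
      (S.neg ≠ 1 → ∀ x, S.q S.neg x = S.zero → x ∈ K0) →
      ∃ K0 ∈ P, (∃ a ∈ K0, a ≠ 1 ∧ a ≠ S.neg) ∧
        ∀ u ∈ K0, u ≠ 1 → ∀ x, S.q u x = S.zero → x ∈ K0 := by
    intro K0 hK0 hne hneg
    refine ⟨K0, hK0, hne, fun u hu hu1 x hx => ?_⟩
    by_cases hun : u = S.neg
    · subst hun
      exact hneg hu1 x hx
    · exact vk hP hV hK0 hu hu1 hun hx
  -- a part not contained in `{1,-1}`
  have hbig : ∃ K ∈ P, ∃ a ∈ K, a ≠ 1 ∧ a ≠ S.neg := by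
    by_contra hcon
    push Not at hcon
    obtain ⟨K, hK, -⟩ := hP.cover 1
    apply hP.ne_top K hK
    rw [eq_top_iff]
    intro x _
    obtain ⟨K', hK', hx'⟩ := hP.cover x
    by_cases hx1 : x = 1
    · rw [hx1]; exact K.one_mem
    · rw [hcon K' hK' x hx' hx1]
      exact hP.neg_mem K hK
  by_cases hn : S.neg = 1
  · obtain ⟨K, hK, hne⟩ := hbig
    exact key K hK hne fun h => absurd hn h
  · obtain ⟨K', hK', hneg', hv'⟩ := hV S.neg hn
    by_cases hb : ∃ a ∈ K', a ≠ 1 ∧ a ≠ S.neg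
    · exact key K' hK' hb fun _ => hv'
    · push Not at hb
      obtain ⟨K, hK, hne⟩ := hbig
      refine key K hK hne fun _ x hx => ?_
      by_cases hx1 : x = 1
      · rw [hx1]; exact K.one_mem
      · rw [hb x (hv' x hx) hx1]
        exact hP.neg_mem K hK

include h hP hV in
/-- the main step: a partition gives a birigid element -/
theorem exists_bi_of_partition [Finite S.G] : ∃ b : S.G, Bi S b := by
  obtain ⟨K0, hK0, ⟨a0, ha0, ha01, ha0n⟩, V0⟩ := exists_k0 hP hV
  have hb0 : ∃ b : S.G, b ∉ K0 := by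
    by_contra hcon
    push Not at hcon
    exact hP.ne_top K0 hK0 (eq_top_iff.2 fun x _ => hcon x)
  have n1 : S.neg ∈ K0 := hP.neg_mem K0 hK0
  -- elements outside a part are not in `{1,-1}`
  have hout : ∀ K ∈ P, ∀ x : S.G, x ∉ K → x ≠ 1 ∧ x ≠ S.neg := by
    intro K hK x hx
    refine ⟨?_, ?_⟩
    · rintro rfl; exact hx K.one_mem
    · rintro rfl; exact hx (hP.neg_mem K hK)
  have q1 : ∀ v, S.q 1 v = S.zero := fun v => by rw [h.qs2]; exact q_one h v
  -- one of `a`, `b` is rigid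
  have main : ∀ a ∈ K0, a ≠ 1 → a ≠ S.neg → ∀ b : S.G, b ∉ K0 → Hr S a ∨ Hr S b := by
    intro a ha ha1 han b hb
    obtain ⟨hb1, hbn⟩ := hout K0 hK0 b hb
    obtain ⟨t, ht⟩ : ∃ t, S.q a b = t := ⟨_, rfl⟩
    have ht' : S.q b a = t := by rw [h.qs2]; exact ht
    have e1 : t ≠ S.zero := by
      intro e
      exact hb (V0 a ha ha1 b (ht.trans e))
    have e2 : S.q b S.neg ≠ t := by
      intro e
      have h1 : S.q b (a * S.neg) = S.zero := (h.qs3 _ _ _).1 (ht'.trans e.symm)
      obtain ⟨Kb, hKb, hbKb⟩ := hP.cover b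
      have h2 : a * S.neg ∈ Kb := vk hP hV hKb hbKb hb1 hbn h1
      have h3 : a ∈ Kb := (Kb.mul_mem_cancel_right (hP.neg_mem Kb hKb)).1 h2
      have hne : K0 ≠ Kb := fun e => hb (by rw [e]; exact hbKb)
      rcases hP.meet K0 hK0 Kb hKb hne a ha h3 with h4 | h4
      · exact ha1 h4
      · exact han h4
    have e3 : S.q a S.neg ≠ t := by
      intro e
      have h1 : S.q a (b * S.neg) = S.zero := (h.qs3 _ _ _).1 (ht.trans e.symm)
      exact hb ((K0.mul_mem_cancel_right n1).1 (V0 a ha ha1 _ h1))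
    -- (4)
    have e4 : ∀ K ∈ P, ∀ u ∈ K, ∀ c ∈ K, (u ≠ S.neg ∨ K = K0) → S.q u c ≠ t := by
      intro K hK u hu c hc hor e
      have hu1 : u ≠ 1 := by
        rintro rfl
        exact e1 (e.symm.trans (q1 c))
      have hVu : ∀ x, S.q u x = S.zero → x ∈ K := by
        intro x hx
        by_cases hun : u = S.neg
        · have hKK : K = K0 := by
            rcases hor with h1 | h1
            · exact absurd hun h1
            · exact h1
          subst hKK
          exact V0 u hu hu1 x hx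
        · exact vk hP hV hK hu hu1 hun hx
      -- the general contradiction with an element `z ∉ K`
      have gen : ∀ z y : S.G, z ∉ K → S.q z y = t → S.q z S.neg ≠ t → False := by
        intro z y hz hzy hzn
        obtain ⟨x, h1, h2⟩ := h.qs4 z y u c (hzy.trans e.symm)
        have h3 : S.q u (c * x) = S.zero := (h.qs3 _ _ _).1 h2
        have h4 : x ∈ K := (K.mul_mem_cancel_left hc).1 (hVu _ h3)
        have hzx : S.q z x = t := h1.symm.trans hzy
        have hux : S.q u x = t := h2.symm.trans e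
        have h5 : S.q x (z * u) = S.zero := by
          rw [← h.qs3, h.qs2 x z, h.qs2 x u, hzx, hux]
        have h6 : z * u ∉ K := fun h6 => hz ((K.mul_mem_cancel_right hu).1 h6)
        obtain ⟨h7, h8⟩ := hout K hK _ h6
        obtain ⟨K2, hK2, hzu⟩ := hP.cover (z * u)
        have h9 : x ∈ K2 := vk hP hV hK2 hzu h7 h8 (by rw [h.qs2]; exact h5)
        have hne : K ≠ K2 := fun e => h6 (by rw [e]; exact hzu)
        rcases hP.meet K hK K2 hK2 hne x h4 h9 with h10 | h10
        · rw [h10, q_one h] at hzx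
          exact e1 hzx.symm
        · rw [h10] at hzx
          exact hzn hzx
      by_cases hbK : b ∈ K
      · have haK : a ∉ K := by
          intro haK
          have hne : K0 ≠ K := fun e => hb (by rw [e]; exact hbK)
          rcases hP.meet K0 hK0 K hK hne a ha haK with h4 | h4
          · exact ha1 h4
          · exact han h4
        exact gen a b haK ht e3
      · exact gen b a hbK ht' e2
    -- the only slot in `K0` is `a`
    have s0 : ∀ u ∈ K0, (∃ c, S.q u c = t) → u = a := by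
      rintro u hu ⟨c, hc⟩
      by_contra hne
      obtain ⟨x, h1, h2⟩ := h.qs4 u c a b (hc.trans ht.symm)
      have hux : S.q u x = t := h1.symm.trans hc
      have hax : S.q a x = t := h2.symm.trans ht
      have h5 : S.q (u * a) x = S.zero := by
        rw [h.qs2, ← h.qs3, h.qs2 x u, h.qs2 x a, hux, hax]
      have h6 : x ∈ K0 := V0 (u * a) (K0.mul_mem hu ha) (fun e => hne (eq_of_mul h _ _ e)) x h5
      exact e4 K0 hK0 u hu x h6 (Or.inr rfl) hux
    have nslot : ∀ v : S.G, v ∉ K0 → S.neg ≠ 1 → S.q v S.neg ≠ S.zero := by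
      intro v hv hn e
      exact hv (V0 S.neg n1 hn v (by rw [h.qs2]; exact e))
    have half : ∀ u v : S.G, u ∈ K0 → v ∉ K0 → (∃ x, S.q u x = t) → ∀ d, S.q u d = S.zero →
        S.q v d = S.zero → d = 1 := by
      intro u v hu hv hus d hd1 hd2
      have hua := s0 u hu hus
      subst hua
      by_contra hd
      have h1 : d ∈ K0 := V0 u hu ha1 d hd1
      obtain ⟨hv1, hvn⟩ := hout K0 hK0 v hv
      obtain ⟨Kv, hKv, hvKv⟩ := hP.cover v
      have h2 : d ∈ Kv := vk hP hV hKv hvKv hv1 hvn hd2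
      have hne : K0 ≠ Kv := fun e => hv (by rw [e]; exact hvKv)
      rcases hP.meet K0 hK0 Kv hKv hne d h1 h2 with h3 | h3
      · exact hd h3
      · subst h3
        exact nslot v hv hd hd2
    have hI : Indep S t := by
      intro u v huv hus hvs d hd1 hd2
      by_cases hu : u ∈ K0
      · have hv : v ∉ K0 := fun hv => huv ((s0 u hu hus).trans (s0 v hv hvs).symm)
        exact half u v hu hv hus d hd1 hd2
      by_cases hv : v ∈ K0
      · exact half v u hv hu hvs d hd2 hd1
      by_contra hd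
      obtain ⟨hu1, hun⟩ := hout K0 hK0 u hu
      obtain ⟨hv1, hvn⟩ := hout K0 hK0 v hv
      obtain ⟨Ku, hKu, huKu⟩ := hP.cover u
      obtain ⟨Kv, hKv, hvKv⟩ := hP.cover v
      have h1 : d ∈ Ku := vk hP hV hKu huKu hu1 hun hd1
      have h2 : d ∈ Kv := vk hP hV hKv hvKv hv1 hvn hd2
      have hne0 : K0 ≠ Ku := fun e => hu (by rw [e]; exact huKu)
      by_cases hKK : Ku = Kv
      · subst hKK
        obtain ⟨c1, hc1⟩ := hus
        obtain ⟨c2, hc2⟩ := hvs
        have huv1 : u * v ≠ 1 := fun e => huv (eq_of_mul h _ _ e)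
        by_cases huvn : u * v = S.neg
        · have h3 : S.q (u * v) d = S.zero := by
            rw [h.qs2, ← h.qs3, h.qs2 d u, h.qs2 d v, hd1, hd2]
          have h4 : d ∈ K0 := V0 (u * v) (by rw [huvn]; exact n1) huv1 d h3
          rcases hP.meet K0 hK0 Ku hKu hne0 d h4 h1 with h5 | h5
          · exact hd h5
          · subst h5
            exact nslot u hu hd hd1
        · obtain ⟨c, h3, h4⟩ := h.qs4 u c1 v c2 (hc1.trans hc2.symm)
          have huc : S.q u c = t := h3.symm.trans hc1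
          have hvc : S.q v c = t := h4.symm.trans hc2
          have h5 : S.q (u * v) c = S.zero := by
            rw [h.qs2, ← h.qs3, h.qs2 c u, h.qs2 c v, huc, hvc]
          have h6 : c ∈ Ku := vk hP hV hKu (Ku.mul_mem huKu hvKv) huv1 huvn h5
          exact e4 Ku hKu u huKu c h6 (Or.inl hun) huc
      · rcases hP.meet Ku hKu Kv hKv hKK d h1 h2 with h3 | h3
        · exact hd h3
        · subst h3
          exact nslot u hu hd hd1
    have hl : ∀ e : S.G, S.q e e ≠ t := by
      intro e he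
      have h1 : S.q e S.neg = S.q e e := (h.qs3 _ _ _).2 (h.qs1 e)
      have h2 : S.q S.neg e = t := by rw [h.qs2, h1, he]
      exact han (s0 S.neg n1 ⟨e, h2⟩).symm
    obtain ⟨w, hw⟩ := rigid_slots h hl hI
    by_cases haw : a = w
    · right
      have hbw : b ≠ w := by
        rintro rfl
        exact hb (by rw [← haw]; exact ha)
      exact hw b hbw ⟨a, ht'⟩
    · left
      exact hw a haw ⟨b, ht⟩
  by_cases hall : ∀ a ∈ K0, a ≠ 1 → a ≠ S.neg → Hr S a
  · refine ⟨a0, ha01, ha0n, hall a0 ha0 ha01 ha0n, hall _ (K0.mul_mem n1 ha0) ?_ ?_⟩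
    · intro e
      exact ha0n (eq_of_mul h _ _ e).symm
    · intro e
      exact ha01 (mul_eq_left.1 e)
  · push Not at hall
    obtain ⟨a, ha, ha1, han, har⟩ := hall
    obtain ⟨b, hb⟩ := hb0
    have hr : ∀ b : S.G, b ∉ K0 → Hr S b := fun b hb => (main a ha ha1 han b hb).resolve_left har
    have hnb : S.neg * b ∉ K0 := fun hc => hb ((K0.mul_mem_cancel_left n1).1 hc)
    obtain ⟨hb1, hbn⟩ := hout K0 hK0 b hb
    exact ⟨b, hb1, hbn, hr b hb, hr _ hnb⟩

end core

end Pool.Agent.R675.PQ
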