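import Mathlib
import Pool.Agent.R675.PQ.Main
import Pool.Agent.R675.ETC4.Fin4

set_option autoImplicit false

/-! Iteration, and the converse. -/

namespace Pool.Agent.R675.PQ

open Pool.Agent.H315R3.ETC Pool.Agent.Y920.ETC

/-- one step of the iteration -/
theorem step {S : QData} (h : IsQuat S) [Finite S.G] {P : Set (Subgroup S.G)}
    (hP : IsPartition S P) (hV : ContainsValueGroups S P) {N : ℕ}
    (hN : ∀ K ∈ P, Nat.card K ≤ N) :
    ∃ T : QData, IsQuat T ∧ Finite T.G ∧ 2 * Nat.card T.G = Nat.card S.G ∧ Iso (ext T) S ∧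
      (Nat.card T.G ≤ N ∨ ∃ P' : Set (Subgroup T.G), IsPartition T P' ∧
        ContainsValueGroups T P' ∧ ∀ K ∈ P', Nat.card K ≤ N) := by
  obtain ⟨b, hb⟩ := exists_bi_of_partition h hP hV
  obtain ⟨B, hB⟩ := Pool.Agent.Y67.ET.t_BASIC S h
  have hbB : b ∉ B := fun hc => (hB b).1 hc hb
  obtain ⟨K, hBK, hbK, hK⟩ := split h.exp2 B b hbB
  have hneg : S.neg ∈ K := hBK ((hB _).2 fun hb => hb.2.1 rfl)
  have hout : ∀ a : S.G, a ∉ K → Bi S a := fun a ha => by
    by_contra hc
    exact ha (hBK ((hB a).2 hc))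
  obtain ⟨h1, h2⟩ := Pool.Agent.Y781.ET.t_EXT S h K b hneg hbK hK hout
  refine ⟨restrN S K hneg, h1, inferInstanceAs (Finite K), card_two h K b hbK hK, h2, ?_⟩
  by_cases hle : ∃ L ∈ P, K ≤ L
  · obtain ⟨L, hL, hKL⟩ := hle
    left
    show Nat.card K ≤ N
    exact (Nat.card_le_card_of_injective (Subgroup.inclusion hKL)
      (Subgroup.inclusion_injective hKL)).trans (hN L hL)
  · right
    push Not at hle
    refine ⟨{M : Subgroup K | ∃ L ∈ P, M = L.subgroupOf K}, ⟨?_, ?_, ?_, ?_⟩, ?_, ?_⟩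
    · rintro M ⟨L, hL, rfl⟩
      exact hP.neg_mem L hL
    · rintro M ⟨L, hL, rfl⟩ e
      exact hle L hL (Subgroup.subgroupOf_eq_top.1 e)
    · intro (x : K)
      obtain ⟨L, hL, hx⟩ := hP.cover x.1
      exact ⟨L.subgroupOf K, ⟨L, hL, rfl⟩, hx⟩
    · rintro M ⟨L, hL, rfl⟩ M' ⟨L', hL', rfl⟩ hne (x : K) hx hx'
      have hne' : L ≠ L' := fun e => hne (by rw [e])
      rcases hP.meet L hL L' hL' hne' x.1 hx hx' with h3 | h3
      · left; exact Subtype.ext h3
      · right; exact Subtype.ext h3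
    · intro (a : K) ha
      obtain ⟨L, hL, haL, hv⟩ := hV a.1 fun e => ha (Subtype.ext e)
      exact ⟨L.subgroupOf K, ⟨L, hL, rfl⟩, haL, fun (b : K) hb => hv b.1 hb⟩
    · rintro M ⟨L, hL, rfl⟩
      refine le_trans (Nat.card_le_card_of_injective
        (fun x : L.subgroupOf K => (⟨x.1.1, x.2⟩ : L)) ?_) (hN L hL)
      intro x y hxy
      exact Subtype.ext (Subtype.ext (congrArg (fun z : L => z.1) hxy))

/-- a structure with a partition is an iterated extension of a structure which is not larger than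
the largest part -/
theorem iter_partition {N : ℕ} : ∀ n : ℕ, ∀ S : QData, IsQuat S → Finite S.G →
    Nat.card S.G ≤ n → ∀ P : Set (Subgroup S.G), IsPartition S P → ContainsValueGroups S P →
    (∀ K ∈ P, Nat.card K ≤ N) →
    ∃ (T : QData) (k : ℕ), IsQuat T ∧ Finite T.G ∧ Nat.card T.G ≤ N ∧
      2 ^ (k + 1) * Nat.card T.G = Nat.card S.G ∧ Iso (ext^[k + 1] T) S := by
  intro n
  induction n with
  | zero =>
    intro S h hf hc
    have : 0 < Nat.card S.G := Nat.card_pos
    omega
  | succ n ih =>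
    intro S h hf hc P hP hV hN
    obtain ⟨T, hT, hTf, hTc, hTi, hor⟩ := step h hP hV hN
    rcases hor with h1 | ⟨P', hP', hV', hN'⟩
    · exact ⟨T, 0, hT, hTf, h1, by simpa using hTc, hTi⟩
    · have hTpos : 0 < Nat.card T.G := Nat.card_pos
      obtain ⟨R, k, hR, hRf, hRc, hRk, hRi⟩ := ih T hT hTf (by omega) P' hP' hV' hN'
      refine ⟨R, k + 1, hR, hRf, hRc, ?_, ?_⟩
      · rw [pow_succ, mul_comm (2 ^ (k + 1)) 2, mul_assoc, hRk, hTc]
      · rw [Function.iterate_succ_apply']
        exact iso_trans (iso_ext hRi) hTi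

theorem elem_of_partition {S : QData} (h : IsQuat S) [Finite S.G] {P : Set (Subgroup S.G)}
    (hP : IsPartition S P) (hV : ContainsValueGroups S P) (hN : ∀ K ∈ P, Nat.card K ≤ 16) :
    Elem S := by
  obtain ⟨T, k, hT, hTf, hTc, -, hTi⟩ :=
    iter_partition _ S h inferInstance le_rfl P hP hV hN
  exact Elem.iso _ _ (Pool.Agent.R675.ETC4.elem_iter4
    (Pool.Agent.R675.ETC4.elem_sixteen T hT hTc) (k + 1)) hTi

/-! ### the converse -/

section conv

variable {S : QData} (h : IsQuat S)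

include h in
lemma pow_cases (g : S.G) (n : ℕ) : g ^ n = 1 ∨ g ^ n = g := by
  induction n with
  | zero => left; exact pow_zero g
  | succ n ih =>
    rcases ih with e | e
    · right; rw [pow_succ, e, one_mul]
    · left; rw [pow_succ, e, h.exp2]

/-- the subgroup `{1, -1, y, -y}` -/
def four (h : IsQuat S) (y : S.G) : Subgroup S.G where
  carrier := {x | ∃ i j : ℕ, x = S.neg ^ i * y ^ j}
  one_mem' := ⟨0, 0, by simp⟩
  mul_mem' := by
    rintro a b ⟨i, j, rfl⟩ ⟨k, l, rfl⟩
    exact ⟨i + k, j + l, by rw [pow_add, pow_add]; exact mul_mul_mul_comm _ _ _ _⟩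
  inv_mem' := by
    intro x hx
    have : x⁻¹ = x := by
      rw [inv_eq_iff_mul_eq_one]
      exact h.exp2 x
    rw [this]
    exact hx

lemma mem_four {x y : S.G} : x ∈ four h y ↔ x = 1 ∨ x = S.neg ∨ x = y ∨ x = S.neg * y := by
  constructor
  · rintro ⟨i, j, rfl⟩
    rcases pow_cases h S.neg i with e1 | e1 <;> rcases pow_cases h y j with e2 | e2 <;>
      rw [e1, e2] <;> simp
  · rintro (rfl | rfl | rfl | rfl)
    · exact ⟨0, 0, by simp⟩
    · exact ⟨1, 0, by simp⟩
    · exact ⟨0, 1, by simp⟩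
    · exact ⟨1, 1, by simp⟩

include h in
/-- a birigid element gives a partition -/
theorem partition_of_bi [Finite S.G] (h8 : 8 ≤ Nat.card S.G) {b : S.G} (hb : Bi S b) :
    ∃ P : Set (Subgroup S.G), IsPartition S P ∧ ContainsValueGroups S P := by
  classical
  have hf : Fintype S.G := Fintype.ofFinite _
  obtain ⟨B, hB⟩ := Pool.Agent.Y67.ET.t_BASIC S h
  have hbB : b ∉ B := fun hc => (hB b).1 hc hb
  obtain ⟨K, hBK, hbK, hK⟩ := split h.exp2 B b hbB
  have hneg : S.neg ∈ K := hBK ((hB _).2 fun hb => hb.2.1 rfl)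
  have hout : ∀ a : S.G, a ∉ K → Bi S a := fun a ha => by
    by_contra hc
    exact ha (hBK ((hB a).2 hc))
  have hnm : ∀ y : S.G, y ∉ K → S.neg * y ∉ K := fun y hy hc =>
    hy ((K.mul_mem_cancel_left hneg).1 hc)
  have hKf : ∀ y : S.G, y ∉ K → ∀ x ∈ K, x ∈ four h y → x = 1 ∨ x = S.neg := by
    intro y hy x hx hx'
    rcases (mem_four h).1 hx' with e | e | e | e
    · exact Or.inl e
    · exact Or.inr e
    · exact absurd (e ▸ hx) hy
    · exact absurd (e ▸ hx) (hnm y hy)
  have hff : ∀ y y' x : S.G, x ∈ four h y → x ∈ four h y' → x ≠ 1 → x ≠ S.neg →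
      four h y = four h y' := by
    intro y y' x hx hx' h1 h2
    have aux : ∀ y : S.G, x ∈ four h y → four h y = four h x := by
      intro y hx
      have hy : x = y ∨ x = S.neg * y := by
        rcases (mem_four h).1 hx with e | e | e | e
        · exact absurd e h1
        · exact absurd e h2
        · exact Or.inl e
        · exact Or.inr e
      rcases hy with e | e
      · rw [e]
      · ext z
        rw [mem_four h, mem_four h, e, neg_neg_mul h]
        tauto
    rw [aux y hx, aux y' hx']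
  refine ⟨{L | L = K ∨ ∃ y, y ∉ K ∧ L = four h y}, ⟨?_, ?_, ?_, ?_⟩, ?_⟩
  · rintro L (rfl | ⟨y, -, rfl⟩)
    · exact hneg
    · exact (mem_four h).2 (Or.inr (Or.inl rfl))
  · rintro L (rfl | ⟨y, -, rfl⟩) e
    · exact hbK (by rw [e]; exact Subgroup.mem_top b)
    · have hsub : (Finset.univ : Finset S.G) ⊆ {1, S.neg, y, S.neg * y} := by
        intro x _
        have : x ∈ four h y := by rw [e]; exact Subgroup.mem_top x
        have := (mem_four h).1 this
        simpa using this
      have h3 := (Finset.card_le_card hsub).trans Finset.card_le_four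
      rw [Finset.card_univ, ← Nat.card_eq_fintype_card] at h3
      omega
  · intro x
    by_cases hx : x ∈ K
    · exact ⟨K, Or.inl rfl, hx⟩
    · exact ⟨four h x, Or.inr ⟨x, hx, rfl⟩, (mem_four h).2 (Or.inr (Or.inr (Or.inl rfl)))⟩
  · rintro L (rfl | ⟨y, hy, rfl⟩) L' (rfl | ⟨y', hy', rfl⟩) hne x hx hx'
    · exact absurd rfl hne
    · exact hKf y' hy' x hx hx'
    · exact hKf y hy x hx' hx
    · by_contra hcon
      push Not at hcon
      exact hne (hff y y' x hx hx' hcon.1 hcon.2)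
  · intro a ha
    by_cases haK : a ∈ K
    · refine ⟨K, Or.inl rfl, haK, fun x hx => ?_⟩
      by_contra hxK
      rcases (hout x hxK).2.2.1 a (by rw [h.qs2]; exact hx) with e | e
      · exact ha e
      · exact hnm x hxK (e ▸ haK)
    · refine ⟨four h a, Or.inr ⟨a, haK, rfl⟩, (mem_four h).2 (Or.inr (Or.inr (Or.inl rfl))),
        fun x hx => ?_⟩
      rcases (hout a haK).2.2.1 x hx with e | e
      · exact (mem_four h).2 (Or.inl e)
      · exact (mem_four h).2 (Or.inr (Or.inr (Or.inr e)))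

end conv

/-- the new element of a group extension is birigid -/
lemma bi_gen {T : QData} (hT : IsQuat T) : Bi (ext T) ((1 : T.G), gen) := by
  have q1 : ∀ v, T.q 1 v = T.zero := fun v => by rw [hT.qs2]; exact q_one hT v
  have hg1 : gen ≠ (1 : C2) := by unfold gen; decide
  have hpg : ∀ {G : Type} [CommGroup G] (a : G), pw a gen = a := by
    intro G _ a
    unfold pw
    rw [if_neg hg1]
  have hp1 : ∀ {G : Type} [CommGroup G] (a : G), pw a 1 = 1 := by
    intro G _ a
    unfold pw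
    rw [if_pos rfl]
  have hc : ∀ γ : C2, γ = 1 ∨ γ = gen := by unfold gen; decide
  refine ⟨?_, ?_, ?_, ?_⟩
  · intro e
    exact hg1 (congrArg Prod.snd e)
  · intro e
    exact hg1 (congrArg Prod.snd e)
  · rintro ⟨c, γ⟩ he
    have he2 : pw (pw T.neg gen) γ * pw 1 γ * pw c gen = 1 := congrArg Prod.snd he
    rw [hpg, hpg] at he2
    rcases hc γ with rfl | rfl
    · left
      rw [hp1, hp1, one_mul, one_mul] at he2
      rw [he2]
      rfl
    · right
      rw [hpg, hpg, mul_one] at he2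
      show ((c, gen) : T.G × C2) = (T.neg * 1, 1 * gen)
      rw [eq_of_mul hT _ _ he2, mul_one, one_mul]
  · rintro ⟨c, γ⟩ he
    have he2 : pw (pw T.neg (1 * gen)) γ * pw (T.neg * 1) γ * pw c (1 * gen) = 1 :=
      congrArg Prod.snd he
    rw [one_mul, mul_one, hpg, hpg] at he2
    have he3 : c = 1 := by
      rcases hc γ with rfl | rfl
      · rwa [hp1, one_mul, one_mul] at he2
      · rwa [hpg, hT.exp2, one_mul] at he2
    subst he3
    rcases hc γ with rfl | rfl
    · left; rfl
    · right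
      show ((1, gen) : T.G × C2) = (T.neg * (T.neg * 1), 1 * (1 * gen))
      rw [mul_one, hT.exp2, one_mul, one_mul]

/-- birigid elements are transported by isomorphisms -/
lemma bi_iso {S T : QData} (hS : ∀ a : S.G, S.q a 1 = S.zero) (hT : IsQuat T) {f : S.G ≃* T.G}
    (hf : f S.neg = T.neg) (hq : ∀ a b c d : S.G, S.q a b = S.q c d ↔ T.q (f a) (f b) =
      T.q (f c) (f d)) {a : S.G} (ha : Bi S a) : Bi T (f a) := by
  have hz : ∀ a b : S.G, S.q a b = S.zero ↔ T.q (f a) (f b) = T.zero := by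
    intro a b
    rw [← hS a, hq, map_one, q_one hT]
  have hr : ∀ a : S.G, Hr S a → Hr T (f a) := by
    intro a ha e he
    obtain ⟨e', rfl⟩ := f.surjective e
    rcases ha e' ((hz _ _).2 he) with h1 | h1
    · left; rw [h1, map_one]
    · right; rw [h1, map_mul, hf]
  refine ⟨?_, ?_, hr a ha.2.2.1, ?_⟩
  · intro e
    exact ha.1 (f.injective (by rw [e, map_one]))
  · intro e
    exact ha.2.1 (f.injective (by rw [e, hf]))
  · rw [← hf, ← map_mul]
    exact hr _ ha.2.2.2

/-- recognition of group extensions -/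
theorem recognition {S : QData} (h : IsQuat S) [Finite S.G] (h8 : 8 ≤ Nat.card S.G) :
    (∃ T : QData, IsQuat T ∧ Iso (ext T) S) ↔
      ∃ P : Set (Subgroup S.G), IsPartition S P ∧ ContainsValueGroups S P := by
  constructor
  · rintro ⟨T, hT, f, hf, hq⟩
    have h1 : ∀ a : (ext T).G, (ext T).q a 1 = (ext T).zero := by
      intro (a : T.G × C2)
      show ((T.q a.1 1, pw (pw T.neg a.2) 1 * pw a.1 1 * pw 1 a.2) : T.Q × T.G) = (T.zero, 1)
      have e1 : ∀ c : T.G, pw c 1 = 1 := fun c => by unfold pw; rw [if_pos rfl]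
      have e2 : ∀ γ : C2, pw (1 : T.G) γ = 1 := fun γ => by unfold pw; split_ifs <;> rfl
      rw [q_one hT, e1, e1, e2, one_mul, one_mul]
    exact partition_of_bi h h8 (bi_iso h1 h hf hq (bi_gen hT))
  · rintro ⟨P, hP, hV⟩
    obtain ⟨b, hb⟩ := exists_bi_of_partition h hP hV
    obtain ⟨T, hT, -, -, hTi, -⟩ := bi_ext h hb
    exact ⟨T, hT, hTi⟩

end Pool.Agent.R675.PQ
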