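import Mathlib
import Pool.Agent.R675.PQ.Ext
import Pool.Agent.Y920.ETC.FieldH
import Pool.Agent.Y920.ETC.FieldR

set_option autoImplicit false

/-! Partitions of `F*/±F*²`. -/

namespace Pool.Agent.R675.PQ

open scoped Quaternion
open Pool.Agent.H315R3.ETC Pool.Agent.Y920.ETC Pool.Agent.TH188.ET

/-- restriction of a partition -/
theorem restrict {S : QData} {P : Set (Subgroup S.G)} (hP : IsPartition S P)
    (hV : ContainsValueGroups S P) (K : Subgroup S.G) (hneg : S.neg ∈ K)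
    (hle : ∀ L ∈ P, ¬ K ≤ L) :
    IsPartition (restrN S K hneg) {M : Subgroup K | ∃ L ∈ P, M = L.subgroupOf K} ∧
    ContainsValueGroups (restrN S K hneg) {M : Subgroup K | ∃ L ∈ P, M = L.subgroupOf K} := by
  refine ⟨⟨?_, ?_, ?_, ?_⟩, ?_⟩
  · rintro M ⟨L, hL, rfl⟩
    exact hP.neg_mem L hL
  · rintro M ⟨L, hL, rfl⟩ e
    exact hle L hL (Subgroup.subgroupOf_eq_top.1 e)
  · intro (x : K)
    obtain ⟨L, hL, hx⟩ := hP.cover x.1
    exact ⟨L.subgroupOf K, ⟨L, hL, rfl⟩, hx⟩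
  · rintro M ⟨L, hL, rfl⟩ M' ⟨L', hL', rfl⟩ hne (x : K) hx hx'
    have hne' : L ≠ L' := fun e => hne (by rw [e])
    rcases hP.meet L hL L' hL' hne' x.1 hx hx' with h3 | h3
    · left; exact Subtype.ext h3
    · right; exact Subtype.ext h3
  · intro (a : K) ha
    obtain ⟨L, hL, haL, hv⟩ := hV a.1 fun e => ha (Subtype.ext e)
    exact ⟨L.subgroupOf K, ⟨L, hL, rfl⟩, haL, fun (b : K) hb => hv b.1 hb⟩

/-- the elements which are not birigid lie in one part -/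
theorem basic_le_part {S : QData} (h : IsQuat S) [Finite S.G] {P : Set (Subgroup S.G)}
    (hP : IsPartition S P) (hV : ContainsValueGroups S P) {B : Subgroup S.G}
    (hB : ∀ a : S.G, a ∈ B ↔ ¬ Bi S a) : ∃ L ∈ P, B ≤ L := by
  by_contra hcon
  push Not at hcon
  have hneg : S.neg ∈ B := (hB _).2 fun hb => hb.2.1 rfl
  have hout : ∀ a : S.G, a ∉ B → Bi S a := fun a ha => by
    by_contra hc
    exact ha ((hB a).2 hc)
  obtain ⟨hq, hin⟩ := isQuat_restrN h B hneg hout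
  obtain ⟨h1, h2⟩ := restrict hP hV B hneg hcon
  have hfB : Finite (restrN S B hneg).G := inferInstanceAs (Finite B)
  obtain ⟨b, hb⟩ := exists_bi_of_partition hq h1 h2
  change B at b
  obtain ⟨hb1, hb2, hb3, hb4⟩ := hb
  refine (hB b.1).1 b.2 ⟨fun e => hb1 (Subtype.ext e), fun e => hb2 (Subtype.ext e), ?_, ?_⟩
  · intro e he
    have he' : e ∈ B := hin b.1 e b.2 (fun e => hb1 (Subtype.ext e)) he
    rcases hb3 (⟨e, he'⟩ : B) he with h3 | h3
    · left; exact congrArg Subtype.val h3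
    · right; exact congrArg Subtype.val h3
  · intro e he
    have hnb : S.neg * b.1 ∈ B := B.mul_mem hneg b.2
    have hnb1 : S.neg * b.1 ≠ 1 := by
      intro e'
      apply hb2
      exact Subtype.ext (eq_of_mul h _ _ e').symm
    have he' : e ∈ B := hin _ e hnb hnb1 he
    rcases hb4 (⟨e, he'⟩ : B) he with h3 | h3
    · left; exact congrArg Subtype.val h3
    · right; exact congrArg Subtype.val h3

section field

variable {F : Type} [Field F] {S : QData} {φ : Fˣ →* S.G} (hs : Function.Surjective φ)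
  (hk : ∀ a : Fˣ, φ a = 1 ↔ ∃ b : Fˣ, a = b ^ 2) (hn : φ (-1) = S.neg)
  (h0 : S.q 1 1 = S.zero)
  (hq : ∀ a b c d : Fˣ, S.q (φ a) (φ b) = S.q (φ c) (φ d) ↔
      Nonempty (ℍ[F,(a : F),0,(b : F)] ≃ₐ[F] ℍ[F,(c : F),0,(d : F)]))

/-- raw form of the hypothesis on fields -/
structure FPart (P : Set (Subgroup Fˣ)) : Prop where
  le : ∀ K ∈ P, sqG F ≤ K
  neg : ∀ K ∈ P, (-1 : Fˣ) ∈ K
  ne_top : ∀ K ∈ P, K ≠ ⊤
  cover : ∀ x : Fˣ, ∃ K ∈ P, x ∈ K
  meet : ∀ K ∈ P, ∀ K' ∈ P, K ≠ K' → ∀ x : Fˣ, x ∈ K → x ∈ K' → x ∈ sqG F ∨ -x ∈ sqG F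
  sums : ∀ x v : Fˣ, x ∉ sqG F → -x ∉ sqG F → (v : F) = 1 + x → ∀ K ∈ P, x ∈ K → v ∈ K
  two : (-1 : Fˣ) ∈ sqG F ∨ ∃ K ∈ P, ∀ (x y : F) (v : Fˣ), (v : F) = x ^ 2 + y ^ 2 → v ∈ K

lemma neg_mem_iff {K : Subgroup Fˣ} (h1 : (-1 : Fˣ) ∈ K) {x : Fˣ} : -x ∈ K ↔ x ∈ K := by
  rw [← neg_one_mul]
  exact K.mul_mem_cancel_left h1

lemma sq_mem {x : Fˣ} : x ^ 2 ∈ sqG F := mem_sqG.2 ⟨x, rfl⟩

/-- norms stay in the part -/
lemma norm_mem {P : Set (Subgroup Fˣ)} (hP : FPart P) {a b : Fˣ} (ha : a ∉ sqG F)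
    (hna : -a ∉ sqG F) {K : Subgroup Fˣ} (hK : K ∈ P) (haK : a ∈ K) (h : NormFrom a b) :
    b ∈ K := by
  obtain ⟨x, y, hxy⟩ := h
  have hn1 := hP.neg K hK
  by_cases hy : y = 0
  · have hx : x ≠ 0 := by
      rintro rfl
      apply b.ne_zero
      rw [hxy, hy]
      ring
    have : b = (Units.mk0 x hx) ^ 2 := by
      ext
      rw [hxy, hy, Units.val_pow_eq_pow_val, Units.val_mk0]
      ring
    rw [this]
    exact hP.le K hK sq_mem
  by_cases hx : x = 0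
  · have : b = -a * (Units.mk0 y hy) ^ 2 := by
      ext
      rw [hxy, hx, Units.val_mul, Units.val_neg, Units.val_pow_eq_pow_val, Units.val_mk0]
      ring
    rw [this]
    exact K.mul_mem ((neg_mem_iff hn1).2 haK) (hP.le K hK sq_mem)
  · set r : Fˣ := (Units.mk0 y hy) * (Units.mk0 x hx)⁻¹ with hr
    have hz : -a * r ^ 2 ∉ sqG F := fun hc =>
      hna (((sqG F).mul_mem_cancel_right sq_mem).1 hc)
    have hz' : -(-a * r ^ 2) ∉ sqG F := fun hc => by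
      rw [neg_mul, neg_neg] at hc
      exact ha (((sqG F).mul_mem_cancel_right sq_mem).1 hc)
    have hzK : -a * r ^ 2 ∈ K := K.mul_mem ((neg_mem_iff hn1).2 haK) (hP.le K hK sq_mem)
    have hv : ((b * ((Units.mk0 x hx)⁻¹) ^ 2 : Fˣ) : F) = 1 + ((-a * r ^ 2 : Fˣ) : F) := by
      rw [hr, Units.val_mul, hxy]
      push_cast [Units.val_mk0]
      field_simp
      ring
    have h1 := hP.sums _ _ hz hz' hv K hK hzK
    exact (K.mul_mem_cancel_right (hP.le K hK sq_mem)).1 h1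

include hs hk hn h0 hq in
theorem transfer (h2 : (2 : F) ≠ 0) {P : Set (Subgroup Fˣ)} (hP : FPart P) :
    IsPartition S {L | ∃ K ∈ P, L = K.map φ} ∧
      ContainsValueGroups S {L | ∃ K ∈ P, L = K.map φ} := by
  have hmem : ∀ K ∈ P, ∀ x : Fˣ, φ x ∈ K.map φ → x ∈ K := by
    rintro K hK x ⟨y, hy, hyx⟩
    obtain ⟨e, rfl⟩ := eq_mul_sq hk hyx
    exact K.mul_mem hy (hP.le K hK sq_mem)
  refine ⟨⟨?_, ?_, ?_, ?_⟩, ?_⟩
  · rintro L ⟨K, hK, rfl⟩
    exact ⟨-1, hP.neg K hK, hn⟩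
  · rintro L ⟨K, hK, rfl⟩ e
    apply hP.ne_top K hK
    rw [eq_top_iff]
    intro x _
    exact hmem K hK x (by rw [e]; exact Subgroup.mem_top _)
  · intro g
    obtain ⟨x, rfl⟩ := hs g
    obtain ⟨K, hK, hx⟩ := hP.cover x
    exact ⟨K.map φ, ⟨K, hK, rfl⟩, ⟨x, hx, rfl⟩⟩
  · rintro L ⟨K, hK, rfl⟩ L' ⟨K', hK', rfl⟩ hne g hg hg'
    obtain ⟨x, rfl⟩ := hs g
    have hne' : K ≠ K' := fun e => hne (by rw [e])
    rcases hP.meet K hK K' hK' hne' x (hmem K hK x hg) (hmem K' hK' x hg') with h1 | h1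
    · left
      rw [hk]
      exact mem_sqG.1 h1
    · right
      have h3 : φ (-x) = 1 := (hk _).2 (mem_sqG.1 h1)
      have h4 : x = -1 * -x := by rw [neg_one_mul, neg_neg]
      rw [h4, map_mul, h3, mul_one, hn]
  · intro g hg
    obtain ⟨a, rfl⟩ := hs g
    have ha : a ∉ sqG F := fun ha => hg ((hk a).2 (mem_sqG.1 ha))
    by_cases hna : -a ∈ sqG F
    · have hn1 : (-1 : Fˣ) ∉ sqG F := fun hc => ha ((neg_mem_iff hc).1 hna)
      obtain ⟨K, hK, hsum⟩ := hP.two.resolve_left hn1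
      obtain ⟨t, ht⟩ := mem_sqG.1 hna
      have haK : a ∈ K := (neg_mem_iff (hP.neg K hK)).1 (hP.le K hK hna)
      refine ⟨K.map φ, ⟨K, hK, rfl⟩, ⟨a, haK, rfl⟩, ?_⟩
      intro c hc
      obtain ⟨b, rfl⟩ := hs c
      rw [q_zero h0 hq h2] at hc
      obtain ⟨x, y, hxy⟩ := hc
      refine ⟨b, hsum x (t * y) b ?_, rfl⟩
      have ht' : (a : F) = -(t : F) ^ 2 := by
        have := congrArg (fun u : Fˣ => (u : F)) ht
        simp only [Units.val_neg, Units.val_pow_eq_pow_val] at this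
        linear_combination -this
      rw [hxy, ht']
      ring
    · obtain ⟨K, hK, haK⟩ := hP.cover a
      refine ⟨K.map φ, ⟨K, hK, rfl⟩, ⟨a, haK, rfl⟩, ?_⟩
      intro c hc
      obtain ⟨b, rfl⟩ := hs c
      rw [q_zero h0 hq h2] at hc
      exact ⟨b, norm_mem hP ha hna hK haK hc, rfl⟩

end field

/-- partitions without parts of index two give valuation rings -/
theorem val_of_partition {F : Type} [Field F] (h2 : (2 : F) ≠ 0) (hfin : (sqG F).index ≠ 0)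
    {P : Set (Subgroup Fˣ)} (hP : FPart P) (hidx : ∀ K ∈ P, K.index ≠ 2) :
    ∃ O : ValuationSubring F, Sqr O ∧
      ∃ c : Fˣ, ∀ f : Fˣ, ¬ (((c * f ^ 2 : Fˣ) : F) ∈ O ∧ (((c * f ^ 2)⁻¹ : Fˣ) : F) ∈ O) := by
  obtain ⟨S, hS, hSf, hSq⟩ := exists_structure h2 (finSq_of_index hfin)
  obtain ⟨φ, hs, hk, hn, h0, hq⟩ := hS
  obtain ⟨B, hB⟩ := Pool.Agent.Y67.ET.t_BASIC S hSq
  obtain ⟨h3, h4⟩ := transfer hs hk hn h0 hq h2 hP
  obtain ⟨L, ⟨K, hK, rfl⟩, hBL⟩ := basic_le_part hSq h3 h4 hB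
  have h5 : (K.map φ).index = K.index := Subgroup.index_map_eq K hs (by
    rw [ker_eq hk]; exact hP.le K hK)
  have h6 : K.index ≠ 0 := by
    rw [← h5]
    exact Subgroup.index_ne_zero_of_finite
  have h7 : K.index ≠ 1 := fun e => hP.ne_top K hK (Subgroup.index_eq_one.1 e)
  have h8 := hidx K hK
  have h9 := (K.map φ).card_mul_index
  have h10 : 3 ≤ (K.map φ).index := by omega
  have h11 : Nat.card B ≤ Nat.card (K.map φ) :=
    Nat.card_le_card_of_injective (Subgroup.inclusion hBL) (Subgroup.inclusion_injective hBL)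
  have h12 : 0 < Nat.card (K.map φ) := Nat.card_pos
  have h13 : Nat.card (K.map φ) * 3 ≤ Nat.card S.G := by
    rw [← h9]
    exact Nat.mul_le_mul_left _ h10
  obtain ⟨O, hO, -, hc⟩ := exists_val hs hk hn h0 hq h2 B hB (by omega)
  exact ⟨O, hO, hc⟩

end Pool.Agent.R675.PQ
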