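import Mathlib
import Pool.Agent.R675.PQ.Fld

set_option autoImplicit false

/-! Valuation rings give partitions of `F*/±F*²`. -/

namespace Pool.Agent.R675.PQ

open scoped Quaternion
open Pool.Agent.H315R3.ETC Pool.Agent.Y920.ETC Pool.Agent.TH188.ET

/-- the partition of a subgroup outside which all elements are birigid -/
theorem partition_of_sub {S : QData} (h : IsQuat S) [Finite S.G] (h8 : 8 ≤ Nat.card S.G)
    (K : Subgroup S.G) (hneg : S.neg ∈ K) (hKtop : K ≠ ⊤) (hout : ∀ a : S.G, a ∉ K → Bi S a) :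
    IsPartition S {L | L = K ∨ ∃ y, y ∉ K ∧ L = four h y} ∧
      ContainsValueGroups S {L | L = K ∨ ∃ y, y ∉ K ∧ L = four h y} := by
  classical
  have hf : Fintype S.G := Fintype.ofFinite _
  have hnm : ∀ y : S.G, y ∉ K → S.neg * y ∉ K := fun y hy hc =>
    hy ((K.mul_mem_cancel_left hneg).1 hc)
  have hKf : ∀ y : S.G, y ∉ K → ∀ x ∈ K, x ∈ four h y → x = 1 ∨ x = S.neg := by
    intro y hy x hx hx'
    rcases (mem_four h).1 hx' with e | e | e | e
    · exact Or.inl e
    · exact Or.inr e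
    · exact absurd (e ▸ hx) hy
    · exact absurd (e ▸ hx) (hnm y hy)
  have hff : ∀ y y' x : S.G, x ∈ four h y → x ∈ four h y' → x ≠ 1 → x ≠ S.neg →
      four h y = four h y' := by
    intro y y' x hx hx' h1 h2
    have aux : ∀ y : S.G, x ∈ four h y → four h y = four h x := by
      intro y hx
      have hy : x = y ∨ x = S.neg * y := by
        rcases (mem_four h).1 hx with e | e | e | e
        · exact absurd e h1
        · exact absurd e h2
        · exact Or.inl e
        · exact Or.inr e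
      rcases hy with e | e
      · rw [e]
      · ext z
        rw [mem_four h, mem_four h, e, neg_neg_mul h]
        tauto
    rw [aux y hx, aux y' hx']
  refine ⟨⟨?_, ?_, ?_, ?_⟩, ?_⟩
  · rintro L (rfl | ⟨y, -, rfl⟩)
    · exact hneg
    · exact (mem_four h).2 (Or.inr (Or.inl rfl))
  · rintro L (rfl | ⟨y, -, rfl⟩) e
    · exact hKtop e
    · have hsub : (Finset.univ : Finset S.G) ⊆ {1, S.neg, y, S.neg * y} := by
        intro x _
        have : x ∈ four h y := by rw [e]; exact Subgroup.mem_top x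
        have := (mem_four h).1 this
        simpa using this
      have h3 := (Finset.card_le_card hsub).trans Finset.card_le_four
      rw [Finset.card_univ, ← Nat.card_eq_fintype_card] at h3
      omega
  · intro x
    by_cases hx : x ∈ K
    · exact ⟨K, Or.inl rfl, hx⟩
    · exact ⟨four h x, Or.inr ⟨x, hx, rfl⟩, (mem_four h).2 (Or.inr (Or.inr (Or.inl rfl)))⟩
  · rintro L (rfl | ⟨y, hy, rfl⟩) L' (rfl | ⟨y', hy', rfl⟩) hne x hx hx'
    · exact absurd rfl hne
    · exact hKf y' hy' x hx hx'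
    · exact hKf y hy x hx' hx
    · by_contra hcon
      push Not at hcon
      exact hne (hff y y' x hx hx' hcon.1 hcon.2)
  · intro a ha
    by_cases haK : a ∈ K
    · refine ⟨K, Or.inl rfl, haK, fun x hx => ?_⟩
      by_contra hxK
      rcases (hout x hxK).2.2.1 a (by rw [h.qs2]; exact hx) with e | e
      · exact ha e
      · exact hnm x hxK (e ▸ haK)
    · refine ⟨four h a, Or.inr ⟨a, haK, rfl⟩, (mem_four h).2 (Or.inr (Or.inr (Or.inl rfl))),
        fun x hx => ?_⟩
      rcases (hout a haK).2.2.1 x hx with e | e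
      · exact (mem_four h).2 (Or.inl e)
      · exact (mem_four h).2 (Or.inr (Or.inr (Or.inr e)))

lemma card_four {S : QData} (h : IsQuat S) [Finite S.G] (y : S.G) : Nat.card (four h y) ≤ 4 := by
  classical
  have hf : Fintype S.G := Fintype.ofFinite _
  have h1 : ((four h y : Subgroup S.G) : Set S.G) ⊆
      (({1, S.neg, y, S.neg * y} : Finset S.G) : Set S.G) := by
    intro x hx
    have := (mem_four h).1 hx
    simpa using this
  have h2 := Set.ncard_le_ncard h1 (Set.toFinite _)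
  rw [Set.ncard_coe_finset] at h2
  exact h2.trans Finset.card_le_four

section field

variable {F : Type} [Field F] {S : QData} {φ : Fˣ →* S.G} (hs : Function.Surjective φ)
  (hk : ∀ a : Fˣ, φ a = 1 ↔ ∃ b : Fˣ, a = b ^ 2) (hn : φ (-1) = S.neg)
  (h0 : S.q 1 1 = S.zero)
  (hq : ∀ a b c d : Fˣ, S.q (φ a) (φ b) = S.q (φ c) (φ d) ↔
      Nonempty (ℍ[F,(a : F),0,(b : F)] ≃ₐ[F] ℍ[F,(c : F),0,(d : F)]))

include hs hk hn h0 hq in
/-- pulling back a partition to the field -/
theorem pullback (h2 : (2 : F) ≠ 0) (h : IsQuat S) {P : Set (Subgroup S.G)}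
    (hP : IsPartition S P) (hV : ContainsValueGroups S P) :
    FPart {L : Subgroup Fˣ | ∃ K ∈ P, L = K.comap φ} := by
  have hphn : ∀ x : Fˣ, φ (-x) = S.neg * φ x := fun x => by
    rw [← hn, ← map_mul, neg_one_mul]
  refine ⟨?_, ?_, ?_, ?_, ?_, ?_, ?_⟩
  · rintro L ⟨K, hK, rfl⟩ x hx
    rw [Subgroup.mem_comap, (hk x).2 (mem_sqG.1 hx)]
    exact K.one_mem
  · rintro L ⟨K, hK, rfl⟩
    rw [Subgroup.mem_comap, hn]
    exact hP.neg_mem K hK
  · rintro L ⟨K, hK, rfl⟩ e
    apply hP.ne_top K hK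
    rw [eq_top_iff]
    intro g _
    obtain ⟨x, rfl⟩ := hs g
    have : x ∈ K.comap φ := by rw [e]; exact Subgroup.mem_top _
    exact this
  · intro x
    obtain ⟨K, hK, hx⟩ := hP.cover (φ x)
    exact ⟨K.comap φ, ⟨K, hK, rfl⟩, hx⟩
  · rintro L ⟨K, hK, rfl⟩ L' ⟨K', hK', rfl⟩ hne x hx hx'
    have hne' : K ≠ K' := fun e => hne (by rw [e])
    rcases hP.meet K hK K' hK' hne' (φ x) hx hx' with h1 | h1
    · left
      exact mem_sqG.2 ((hk x).1 h1)
    · right
      rw [mem_sqG, ← hk, hphn, h1, h.exp2]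
  · rintro x v hx hnx hv L ⟨K, hK, rfl⟩ hxK
    have h1 : φ (-x) ∈ K := by
      rw [hphn]
      exact K.mul_mem (hP.neg_mem K hK) hxK
    have h3 : φ (-x) ≠ 1 := fun e => hnx (mem_sqG.2 ((hk _).1 e))
    have h4 : φ (-x) ≠ S.neg := by
      intro e
      apply hx
      rw [mem_sqG, ← hk]
      rw [hphn] at e
      exact mul_eq_left.1 e
    refine vk hP hV hK h1 h3 h4 ?_
    rw [q_zero h0 hq h2]
    exact ⟨1, 1, by rw [hv, Units.val_neg]; ring⟩
  · by_cases hn1 : S.neg = 1
    · left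
      rw [mem_sqG, ← hk, hn, hn1]
    · right
      obtain ⟨K, hK, -, hv⟩ := hV S.neg hn1
      refine ⟨K.comap φ, ⟨K, hK, rfl⟩, fun x y v hxy => hv _ ?_⟩
      rw [← hn, q_zero h0 hq h2]
      exact ⟨x, y, by rw [hxy, Units.val_neg, Units.val_one]; ring⟩

end field

/-- valuation rings give partitions without parts of index two -/
theorem partition_of_val (hres : S_RES) {F : Type} [Field F] (h2 : (2 : F) ≠ 0)
    (h16 : 16 ≤ (sqG F).index) (O : ValuationSubring F) (hO : Sqr O)
    (h1 : (O.unitGroup ⊔ sqG F).index ≠ 1) (h3 : (O.unitGroup ⊔ sqG F).index ≠ 2) :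
    ∃ P : Set (Subgroup Fˣ), FPart P ∧ ∀ K ∈ P, K.index ≠ 2 := by
  obtain ⟨S, hS, hSf, hSq⟩ := exists_structure h2 (finSq_of_index (by omega))
  obtain ⟨φ, hs, hk, hn, h0, hq⟩ := hS
  obtain ⟨-, -, hbi⟩ := hres F O hO S φ hs hk hn h0 hq
  have hneg : S.neg ∈ O.unitGroup.map φ := by
    by_contra hc'
    exact (hbi _ hc').2.1 rfl
  have hcard : Nat.card S.G = (sqG F).index := card_eq hs hk
  have hidx : (O.unitGroup.map φ).index = (O.unitGroup ⊔ sqG F).index := by
    have e : (O.unitGroup.map φ).comap φ = O.unitGroup ⊔ sqG F := by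
      rw [Subgroup.comap_map_eq, ker_eq hk]
    rw [← e, Subgroup.index_comap_of_surjective _ hs]
  have htop : O.unitGroup.map φ ≠ ⊤ := fun e => h1 (by rw [← hidx, e, Subgroup.index_top])
  obtain ⟨hP, hV⟩ := partition_of_sub hSq (by omega) _ hneg htop hbi
  refine ⟨_, pullback hs hk hn h0 hq h2 hSq hP hV, ?_⟩
  rintro L ⟨K, hK, rfl⟩
  rw [Subgroup.index_comap_of_surjective _ hs]
  rcases hK with rfl | ⟨y, -, rfl⟩
  · rw [hidx]; exact h3
  · intro e
    have h4 := (four hSq y).card_mul_index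
    have h5 := card_four hSq y
    rw [e] at h4
    omega

end Pool.Agent.R675.PQ
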